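import Mathlib
import Pool.Agent.H50.NormEq

set_option autoImplicit false

namespace Pool.Agent.Results.MP_36f7ac_an.AllFail

open Matrix Filter Topology

/-- real `N × N` matrices -/
abbrev Mat (N : ℕ) := Matrix (Fin N) (Fin N) ℝ

/-- the product `A_n B_n ⋯ A_1 B_1` -/
def prodAB {N n : ℕ} (a b : Fin n → Mat N) : Mat N := (List.ofFn fun i => a i * b i).reverse.prod

/-- spectral radius of a real matrix: the largest modulus of a complex eigenvalue -/
noncomputable def rho {N : ℕ} (X : Mat N) : ℝ :=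
  (spectralRadius ℂ (X.map (algebraMap ℝ ℂ))).toReal

/-- `max_A min_B φ (A_n B_n ⋯ A_1 B_1)` -/
noncomputable def mu {N : ℕ} (𝒜 ℬ : Finset (Mat N)) (φ : Mat N → ℝ) (n : ℕ) : ℝ :=
  ⨆ a : Fin n → 𝒜, ⨅ b : Fin n → ℬ, φ (prodAB (fun i => (a i : Mat N)) fun i => (b i : Mat N))

/-- `min_B max_A φ (A_n B_n ⋯ A_1 B_1)` -/
noncomputable def eta {N : ℕ} (𝒜 ℬ : Finset (Mat N)) (φ : Mat N → ℝ) (n : ℕ) : ℝ :=
  ⨅ b : Fin n → ℬ, ⨆ a : Fin n → 𝒜, φ (prodAB (fun i => (a i : Mat N)) fun i => (b i : Mat N))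

/-- the sequence `u_n ^ (1 / n)` -/
noncomputable def root (u : ℕ → ℝ) (n : ℕ) : ℝ := u n ^ (1 / (n : ℝ))

def g (n : ℕ) : ℕ := if n % 2 = 1 then n / 2 % 2 else if n = 0 then 0 else g (n / 2)
decreasing_by omega

theorem g_odd {n : ℕ} (h : n % 2 = 1) : g n = n / 2 % 2 := by rw [g, if_pos h]

theorem g_even (m : ℕ) : g (2 * m) = g m := by
  rw [g, if_neg (by omega)]
  split_ifs with h
  · rw [show m = 0 by omega, g]; simp
  · congr 1; omega

theorem g_lt (n : ℕ) : g n < 2 := by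
  induction n using Nat.strong_induction_on with
  | _ n ih =>
    rw [g]
    split_ifs
    · omega
    · omega
    · exact ih _ (by omega)

theorem g_sq (q : ℕ) : 1 ≤ q → ∀ t, ∃ i < 2 * q, g (t + i) ≠ g (t + 2 * q + i) := by
  induction q using Nat.strong_induction_on with
  | _ q ih =>
    intro hq t
    by_cases h : q % 2 = 1
    · refine ⟨(t + 1) % 2, by omega, ?_⟩
      rw [g_odd (by omega), g_odd (by omega)]
      omega
    · obtain ⟨i, hi, hne⟩ := ih (q / 2) (by omega) (by omega) ((t + 1) / 2)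
      refine ⟨2 * ((t + 1) / 2 + i) - t, by omega, ?_⟩
      rw [show t + (2 * ((t + 1) / 2 + i) - t) = 2 * ((t + 1) / 2 + i) by omega,
        show t + 2 * q + (2 * ((t + 1) / 2 + i) - t) = 2 * ((t + 1) / 2 + 2 * (q / 2) + i) by omega,
        g_even, g_even]
      exact hne

def dig (n : ℕ) : ℕ := 2 * (n % 2) + g n

theorem dig_lt (n : ℕ) : dig n < 4 := by have := g_lt n; unfold dig; omega

theorem dig_sq (t l : ℕ) (hl : 1 ≤ l) : ∃ i < l, dig (t + i) ≠ dig (t + l + i) := by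
  by_cases h : l % 2 = 1
  · refine ⟨0, hl, ?_⟩
    have := g_lt (t + 0); have := g_lt (t + l + 0)
    unfold dig; omega
  · obtain ⟨i, hi, hne⟩ := g_sq (l / 2) (by omega) t
    refine ⟨i, by omega, ?_⟩
    rw [show 2 * (l / 2) = l by omega] at hne
    unfold dig; omega

def code (t : ℕ) : ℕ → ℕ
  | 0 => 1
  | l + 1 => 4 * code t l + dig (t + l)

theorem code_pos (t l : ℕ) : 1 ≤ code t l := by
  induction l with
  | zero => exact le_rfl
  | succ l ih => unfold code; omega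

theorem code_inj (t s l : ℕ) : ∀ m, code t l = code s m → l = m ∧ ∀ i < l, dig (t + i) = dig (s + i) := by
  induction l with
  | zero =>
    intro m h
    cases m with
    | zero => simp
    | succ m => have := code_pos s m; simp only [code] at h; omega
  | succ l ih =>
    intro m h
    cases m with
    | zero => have := code_pos t l; simp only [code] at h; omega
    | succ m =>
      simp only [code] at h
      have h1 := dig_lt (t + l); have h2 := dig_lt (s + m)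
      obtain ⟨rfl, h3⟩ := ih m (by omega)
      refine ⟨rfl, fun i hi => ?_⟩
      rcases Nat.lt_succ_iff_lt_or_eq.1 hi with h4 | rfl
      · exact h3 i h4
      · omega

theorem code_ne (t l m : ℕ) (hm : 1 ≤ m) : code t l ≠ code (t + l) m := by
  intro h
  obtain ⟨rfl, h2⟩ := code_inj _ _ _ _ h
  obtain ⟨i, hi, hne⟩ := dig_sq t l hm
  exact hne (h2 i hi)

def A (d : ℕ) : Mat 5 :=
  !![1, 0, 0, 0, 0; 0, 1, 0, 0, 0; d, 0, 4, 0, 0; 0, d, 0, 4, 0; 0, (d : ℝ) ^ 2, 0, 8 * d, 16]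

def K : Mat 5 :=
  !![0, 0, 1, 0, -1; 1, 0, 0, -1, 0; 0, 0, 1, 0, -1; 1, 0, 0, -1, 0; 1, 0, 0, -1, 0]

def st (x y c : ℝ) : Fin 5 → ℝ := ![x, y, x * c, y * c, y * c ^ 2]

theorem A_st (d : ℕ) (x y c : ℝ) : A d *ᵥ st x y c = st x y (4 * c + d) := by
  ext i; fin_cases i <;> simp [A, st, mulVec, dotProduct, Fin.sum_univ_five] <;> ring

theorem K_st (x y c : ℝ) : K *ᵥ st x y c = st ((x - y * c) * c) (x - y * c) 1 := by
  ext i; fin_cases i <;> simp [K, st, mulVec, dotProduct, Fin.sum_univ_five] <;> ring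

theorem K_any (v : Fin 5 → ℝ) : K *ᵥ v = st (v 2 - v 4) (v 0 - v 3) 1 := by
  ext i; fin_cases i <;> simp [K, st, mulVec, dotProduct, Fin.sum_univ_five] <;> ring

def Q (α β : ℕ → Mat 5) : ℕ → Mat 5
  | 0 => 1
  | n + 1 => α n * β n * Q α β n

theorem prod_eq (α β : ℕ → Mat 5) (n : ℕ) :
    prodAB (n := n) (fun i => α i) (fun i => β i) = Q α β n := by
  induction n with
  | zero => simp [prodAB, Q]
  | succ n ih =>
    unfold prodAB at ih ⊢
    rw [List.ofFn_succ_last, List.reverse_append]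
    simp only [List.reverse_cons, List.reverse_nil, List.nil_append, List.cons_append,
      List.prod_cons, Fin.val_last, Fin.val_castSucc]
    rw [ih, Q]

theorem lower (β : ℕ → Mat 5) (hβ : ∀ i, β i = 1 ∨ β i = K) (n : ℕ) :
    ∃ (x y : ℤ) (s l : ℕ), s + l = n ∧ (1 ≤ n → 1 ≤ l) ∧
      Q (fun i => A (dig i)) β n *ᵥ st 1 0 1 = st x y (code s l) ∧
      ((x = 1 ∧ y = 0) ∨ (1 ≤ n ∧ y ≠ 0 ∧ ∃ t k, t + k = s ∧ x = y * code t k)) := by
  induction n with
  | zero => exact ⟨1, 0, 0, 0, rfl, by simp, by simp [Q, code], Or.inl ⟨rfl, rfl⟩⟩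
  | succ n ih =>
    obtain ⟨x, y, s, l, h1, h2, h3, h4⟩ := ih
    rcases hβ n with h | h
    · refine ⟨x, y, s, l + 1, by omega, by omega, ?_, ?_⟩
      · simp only [Q, h, mul_one]
        rw [← mulVec_mulVec, h3, A_st, code, h1]; push_cast; rfl
      · rcases h4 with h4 | ⟨-, h5, h6⟩
        · exact Or.inl h4
        · exact Or.inr ⟨by omega, h5, h6⟩
    · refine ⟨(x - y * code s l) * code s l, x - y * code s l, n, 1, rfl, by omega, ?_,
        Or.inr ⟨by omega, ?_, s, l, h1, rfl⟩⟩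
      · simp only [Q, h]
        rw [← mulVec_mulVec, ← mulVec_mulVec, h3, K_st, A_st]
        simp [code]
      · rcases h4 with ⟨rfl, rfl⟩ | ⟨h5, h6, t, k, rfl, rfl⟩
        · simp
        · rw [← mul_sub]
          exact mul_ne_zero h6 (sub_ne_zero.2 (by exact_mod_cast code_ne t k l (h2 h5)))

theorem entry (β : ℕ → Mat 5) (hβ : ∀ i, β i = 1 ∨ β i = K) (n : ℕ) :
    ∃ i j, 1 / 2 ≤ |Q (fun i => A (dig i)) β n i j| := by
  obtain ⟨x, y, s, l, -, -, h3, h4⟩ := lower β hβ n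
  set P := Q (fun i => A (dig i)) β n
  have e0 := congrFun h3 0
  have e1 := congrFun h3 1
  simp [st, mulVec, dotProduct, Fin.sum_univ_five] at e0 e1
  by_contra hc
  push Not at hc
  have a := abs_lt.1 (hc 0 0); have b := abs_lt.1 (hc 0 2)
  have c := abs_lt.1 (hc 1 0); have d := abs_lt.1 (hc 1 2)
  rcases h4 with ⟨rfl, rfl⟩ | ⟨-, h5, -⟩
  · push_cast at e0; linarith
  · have : (1 : ℝ) ≤ |(y : ℝ)| := by exact_mod_cast Int.one_le_abs h5
    have : |(y : ℝ)| < 1 := abs_lt.2 ⟨by linarith, by linarith⟩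
    linarith

theorem upper (α : ℕ → Mat 5) (hα : ∀ i, ∃ d, α i = A d) (n : ℕ) :
    ∃ (c : ℝ) (X : Mat 5), Q α (fun i => if i = 0 then K else 1) (n + 1) = X * K ∧
      ∀ x y, X *ᵥ st x y 1 = st x y c := by
  induction n with
  | zero =>
    obtain ⟨d, hd⟩ := hα 0
    exact ⟨4 * 1 + d, A d, by simp [Q, hd], fun x y => A_st d x y 1⟩
  | succ n ih =>
    obtain ⟨c, X, h1, h2⟩ := ih
    obtain ⟨d, hd⟩ := hα (n + 1)
    refine ⟨4 * c + d, A d * X, ?_, fun x y => by rw [← mulVec_mulVec, h2, A_st]⟩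
    rw [Q, h1, hd]; simp [mul_assoc]

theorem rho_zero (α : ℕ → Mat 5) (hα : ∀ i, ∃ d, α i = A d) (n : ℕ) :
    rho (Q α (fun i => if i = 0 then K else 1) (n + 1)) = 0 := by
  obtain ⟨c, X, h1, h2⟩ := upper α hα n
  have h3 : (X * K) ^ 3 = 0 := by
    refine ext_of_mulVec_single fun j => ?_
    rw [pow_three]
    simp only [← mulVec_mulVec]
    rw [K_any (Pi.single j 1), h2, K_st, h2, K_st, h2]
    ext i; fin_cases i <;> simp [st]
  have h4 : ((X * K).map (algebraMap ℝ ℂ)) ^ 3 = 0 := by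
    have := congrArg (RingHom.mapMatrix (m := Fin 5) (algebraMap ℝ ℂ)) h3
    rw [map_pow, map_zero] at this
    exact this
  rw [h1, rho]
  have : spectralRadius ℂ ((X * K).map (algebraMap ℝ ℂ)) = 0 := by
    refine le_antisymm (iSup₂_le fun z hz => ?_) zero_le
    have h5 := spectrum.pow_mem_pow _ 3 hz
    rw [h4, spectrum.zero_eq] at h5
    have : z = 0 := pow_eq_zero_iff (by norm_num) |>.1 h5
    simp [this]
  rw [this]; rfl

theorem rho_nonneg {N : ℕ} (X : Mat N) : 0 ≤ rho X := ENNReal.toReal_nonneg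

open Classical in
noncomputable def SA : Finset (Mat 5) := (Finset.range 4).image A

open Classical in
noncomputable def SB : Finset (Mat 5) := {1, K}

theorem A_mem (i : ℕ) : A (dig i) ∈ SA := by
  classical
  exact Finset.mem_image.2 ⟨_, Finset.mem_range.2 (dig_lt i), rfl⟩

theorem one_mem : (1 : Mat 5) ∈ SB := by simp [SB]
theorem K_mem : K ∈ SB := by simp [SB]

def ex {n : ℕ} (a : Fin n → Mat 5) (d : Mat 5) (k : ℕ) : Mat 5 := if h : k < n then a ⟨k, h⟩ else d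

theorem tup {n : ℕ} (a : Fin n → Mat 5) (d : Mat 5) : a = fun i : Fin n => ex a d i := by
  ext1 i; simp [ex]

theorem low (ν : Mat 5 → ℝ) (c : ℝ) (h : ∀ X : Mat 5, (∃ i j, 1 / 2 ≤ |X i j|) → c ≤ ν X) (n : ℕ)
    (b : Fin n → SB) : c ≤ ν (prodAB (fun i : Fin n => A (dig i)) fun i => (b i : Mat 5)) := by
  rw [tup (fun i => (b i : Mat 5)) 1, prod_eq (fun i => A (dig i))]
  refine h _ (entry _ (fun i => ?_) n)
  unfold ex
  split_ifs with hi
  · have : ∀ X ∈ SB, X = 1 ∨ X = K := fun X hX => by simpa [SB] using hX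
    exact this _ (b ⟨i, hi⟩).2
  · exact Or.inl rfl

theorem up (n : ℕ) (a : Fin (n + 1) → SA) :
    rho (prodAB (fun i => (a i : Mat 5)) fun i : Fin (n + 1) => if (i : ℕ) = 0 then K else 1) = 0 := by
  rw [tup (fun i => (a i : Mat 5)) (A 0), prod_eq _ (fun i => if i = 0 then K else 1)]
  refine rho_zero _ (fun i => ?_) n
  unfold ex
  split_ifs with hi
  · classical
    obtain ⟨d, -, hd⟩ := Finset.mem_image.1 (a ⟨i, hi⟩).2
    exact ⟨d, hd.symm⟩
  · exact ⟨0, rfl⟩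

theorem root_zero {u : ℕ → ℝ} (h : ∀ n, 1 ≤ n → u n = 0) : Tendsto (root u) atTop (𝓝 0) := by
  refine tendsto_const_nhds.congr' ?_
  filter_upwards [eventually_ge_atTop 1] with n hn
  rw [root, h n hn, Real.zero_rpow]
  positivity

theorem one_le_lim {u : ℕ → ℝ} {c L : ℝ} (hc : 0 < c) (h : ∀ n, c ≤ u n)
    (hL : Tendsto (root u) atTop (𝓝 L)) : 1 ≤ L := by
  have h1 : Tendsto (fun n : ℕ => c ^ (1 / (n : ℝ))) atTop (𝓝 (c ^ (0 : ℝ))) :=
    tendsto_const_nhds.rpow tendsto_one_div_atTop_nhds_zero_nat (Or.inl hc.ne')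
  rw [Real.rpow_zero] at h1
  exact le_of_tendsto_of_tendsto' h1 hL fun n => Real.rpow_le_rpow hc.le (h n) (by positivity)

theorem result : ∃ (N : ℕ) (𝒜 ℬ : Finset (Mat N)), 1 ≤ N ∧ 𝒜.Nonempty ∧ ℬ.Nonempty ∧
    (∀ n, 1 ≤ n → mu 𝒜 ℬ rho n = 0 ∧ eta 𝒜 ℬ rho n = 0) ∧
    ∀ ν : Seminorm ℝ (Mat N), (∀ X, ν X = 0 → X = 0) →
      (∃ c > 0, ∀ n, c ≤ mu 𝒜 ℬ ν n ∧ c ≤ eta 𝒜 ℬ ν n) ∧
      (∀ μ, Tendsto (root (mu 𝒜 ℬ ν)) atTop (𝓝 μ) →
        limsup (root (mu 𝒜 ℬ rho)) atTop < μ ∧ liminf (root (mu 𝒜 ℬ rho)) atTop < μ) ∧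
      ∀ η, Tendsto (root (eta 𝒜 ℬ ν)) atTop (𝓝 η) →
        limsup (root (eta 𝒜 ℬ rho)) atTop < η ∧ liminf (root (eta 𝒜 ℬ rho)) atTop < η := by
  have : Nonempty SA := ⟨⟨_, A_mem 0⟩⟩
  have : Nonempty SB := ⟨⟨_, one_mem⟩⟩
  have hz : ∀ n, 1 ≤ n → mu SA SB rho n = 0 ∧ eta SA SB rho n = 0 := by
    intro n hn
    obtain ⟨n, rfl⟩ : ∃ m, n = m + 1 := ⟨n - 1, by omega⟩
    let b : Fin (n + 1) → SB := fun i => if (i : ℕ) = 0 then ⟨K, K_mem⟩ else ⟨1, one_mem⟩
    have hb : (fun i => (b i : Mat 5)) = fun i : Fin (n + 1) => if (i : ℕ) = 0 then K else 1 := by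
      ext1 i; simp only [b]; split_ifs <;> rfl
    constructor
    · unfold mu
      refine (iSup_congr fun a => ?_).trans (ciSup_const (a := 0))
      refine le_antisymm (ciInf_le_of_le (Finite.bddBelow_range _) b ?_)
        (le_ciInf fun _ => rho_nonneg _)
      rw [hb, up]
    · unfold eta
      refine le_antisymm (ciInf_le_of_le (Finite.bddBelow_range _) b (ciSup_le fun a => ?_))
        (le_ciInf fun _ => Real.iSup_nonneg fun _ => rho_nonneg _)
      rw [hb, up]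
  refine ⟨5, SA, SB, by norm_num, ⟨_, A_mem 0⟩, ⟨_, one_mem⟩, hz, fun ν hν => ?_⟩
  obtain ⟨⟨C, hC, hb⟩, -⟩ := Pool.Agent.H50.NormEq.both ν hν
  have hc : 0 < 1 / (2 * C) := by positivity
  have h1 : ∀ X : Mat 5, (∃ i j, 1 / 2 ≤ |X i j|) → 1 / (2 * C) ≤ ν X := by
    rintro X ⟨i, j, h⟩
    rw [div_le_iff₀ (by positivity)]
    have := hb X i j
    nlinarith
  have h2 : ∀ n, 1 / (2 * C) ≤ mu SA SB ν n ∧ 1 / (2 * C) ≤ eta SA SB ν n := fun n =>
    ⟨le_ciSup_of_le (Finite.bddAbove_range _) (fun i => ⟨_, A_mem i⟩)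
      (le_ciInf fun b => low ν _ h1 n b),
    le_ciInf fun b => le_ciSup_of_le (Finite.bddAbove_range _) (fun i => ⟨_, A_mem i⟩)
      (low ν _ h1 n b)⟩
  have z1 := root_zero fun n hn => (hz n hn).1
  have z2 := root_zero fun n hn => (hz n hn).2
  refine ⟨⟨_, hc, h2⟩, fun μ hμ => ?_, fun η hη => ?_⟩
  · have := one_le_lim hc (fun n => (h2 n).1) hμ
    rw [z1.limsup_eq, z1.liminf_eq]
    constructor <;> linarith
  · have := one_le_lim hc (fun n => (h2 n).2) hη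
    rw [z2.limsup_eq, z2.liminf_eq]
    constructor <;> linarith

end Pool.Agent.Results.MP_36f7ac_an.AllFail
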